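import Mathlib
import Pool.Agent.H524R3.ExpDefs
import Pool.Agent.W719.AEC.Defs
import Pool.Agent.Y397.PG.Defs
import Pool.Agent.Y397.PG.Main
import Pool.Agent.Y397.PG.Theta

set_option autoImplicit false

open W719AEC Pool.Agent.Y397.PG

namespace Pool.Agent.Results.MP_1d444f_gt.PackingCriterion

/-- The asymptotic expansion conjecture for SU(N): a criterion for its failure, with the growth exponent.
`Fails N Γ E` says, for the closed oriented graph manifold M of the plumbing graph Γ, for G = SU(N) and
r = k + N: c r^E log r ≤ |Z_k(M)| ≤ C r^E (1 + log r)^B for all large r (with c > 0), and for no phases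
ω k of absolute value 1 (in particular in no 2-framing of M) does the sequence ω k * Z_k(M) have an
asymptotic expansion ∑_j exp (2 π i r c_j) r^(d_j) b_j (1 + ∑_l a_{j,l} r^(-l/2)), with any finite family
of real phases c_j and real exponents d_j.
1. Let Γ be a plumbing graph (any number of vertices and edges, loops and multiple edges allowed, pieces
of any genus) with Euler numbers 0 whose edges come in pairs of opposite sign with the same ends. If the
maximum in the definition of `IsOptimal` (a linear programme: fractional packings of the vertices with
the weights 1 - N (g_v - 1)) is attained at two different packings, the conjecture fails for M and SU(N),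
and the growth exponent E is determined by the maximum and the graph.
2. The conjecture fails for every k ≥ 1 for the graph manifold M_k of the graph with two vertices of genus 1
joined by k positive and k negative edges, for all groups SU(N), N ≥ 2, at the same time, with the exponent
(N^2 - 1) k + (N - 1), so that there are infinitely many manifolds which are counterexamples for
all SU(N). -/
theorem result :
    (∀ (N : ℕ), 2 ≤ N → ∀ (n m : ℕ) (Γ : PlumbingGraph n m), (∀ v, Γ.euler v = 0) → Doubled Γ →
      ∀ α α' : Fin n → ℝ, IsOptimal N Γ α → IsOptimal N Γ α' → α ≠ α' →
        Fails N Γ (growth N Γ (weight N Γ α))) ∧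
    (∀ k : ℕ, 1 ≤ k → ∀ N : ℕ, 2 ≤ N → Fails N (theta k) (((N : ℝ) ^ 2 - 1) * k + ((N : ℝ) - 1))) :=
  ⟨fun N hN _ _ Γ h0 hd α α' hα hα' hne => main_of_dual N hN Γ h0 hd α α' hα hα' hne,
    fun k hk N hN => theta_fails k hk N hN⟩

end Pool.Agent.Results.MP_1d444f_gt.PackingCriterion
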